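import Pool.Agent.Y57.FD.Tup0
import Pool.Agent.Y57.FD.HypM

/-!
# The first seven moments of the Sato-Tate conjecture for abelian surfaces: Jacobians of the curves
`y ^ 2 = x ^ 5 + m 4 x ^ 4 + m 3 x ^ 3 + m 2 x ^ 2 + m 1 x + m 0` whose coefficients are integers with few changed digits

Over arbitrary families of weights on the primes, and jointly at `s` consecutive primes, the moments of the normalised trace of Frobenius
are `1, 0, 1, 0, 3, 0, 14, 0`, as for the Haar measure of `USp(4)`, with a square-root error, for almost all choices of the digits.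

The local moments are computed exactly: for a random monic polynomial of degree `5` the values at five points are independent, and the
sum of the characters of the values at six points is a Jacobi sum.  Weil's bound is used for the size of the traces.
-/

set_option autoImplicit false

namespace Pool.Agent.Results.MP_6dc561_nt.FewDigitJacobians

open Finset

/-- The number of the points over the field with `p` elements of the smooth projective curve with the affine equation
`y ^ 2 = x ^ 5 + m 4 x ^ 4 + m 3 x ^ 3 + m 2 x ^ 2 + m 1 x + m 0`: the affine points and one point at infinity. -/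
noncomputable def points (p : ℕ) (m : Fin 5 → ℕ) : ℕ :=
  Nat.card {P : ZMod p × ZMod p // P.2 ^ 2 = P.1 ^ 5 + ∑ i : Fin 5, (m i : ZMod p) * P.1 ^ (i : ℕ)} + 1

/-- `p` is odd and `x ^ 5 + m 4 x ^ 4 + ... + m 0` is separable modulo `p`; then the Jacobian has good reduction at `p`. -/
def Smooth (p : ℕ) (m : Fin 5 → ℕ) : Prop :=
  p ≠ 2 ∧ (Polynomial.X ^ 5 + ∑ i : Fin 5, Polynomial.C (m i : ZMod p) * Polynomial.X ^ (i : ℕ) : Polynomial (ZMod p)).Separable

open Classical in
/-- The normalised trace `(p + 1 - #C(F_p)) / p ^ (1 / 2)` of Frobenius on the Tate module of the Jacobian, that is, the trace of the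
class `s(p)` in `USp(4)`, and `0` if the curve is not smooth modulo `p`. -/
noncomputable def frobTrace (p : ℕ) (m : Fin 5 → ℕ) : ℝ :=
  if Smooth p m then ((p : ℝ) + 1 - points p m) / Real.sqrt p else 0

/-- The joint moment of the orders `e i` of the traces at the `s` consecutive primes with the indices `k, ..., k + s - 1`, `k < n`
(the primes are numbered from `0`), with the weights `w k`. -/
noncomputable def momentSum (s : ℕ) (w : ℕ → ℝ) (e : Fin s → ℕ) (n : ℕ) (m : Fin 5 → ℕ) : ℝ :=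
  ∑ k ∈ range n, w k * ∏ i : Fin s, frobTrace (Nat.nth Nat.Prime (k + i)) m ^ e i

/-- The moments up to the order `7` of the trace of a random matrix in `USp(4)`: `1, 0, 1, 0, 3, 0, 14, 0`. -/
def haar : ℕ → ℝ
  | 0 => 1
  | 2 => 1
  | 4 => 3
  | 6 => 14
  | _ => 0

/-- For all weights in `W` and all orders `e i ≤ 7` the joint moment differs from the predicted value `(∑ w k) ∏ haar (e i)` by at
most `(max 1 (∑ w k ^ 2)) ^ (1 / 2) n ^ δ`. -/
def GoodMoments (s : ℕ) (δ : ℝ) (W : Set (ℕ → ℝ)) (n : ℕ) (m : Fin 5 → ℕ) : Prop :=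
  ∀ w ∈ W, ∀ e : Fin s → ℕ, (∀ i, e i ≤ 7) →
    |momentSum s w e n m - (∑ k ∈ range n, w k) * ∏ i, haar (e i)| ≤ Real.sqrt (max 1 (∑ k ∈ range n, w k ^ 2)) * (n : ℝ) ^ δ

/-- The digit number `i` (counted from the right, beginning with `0`) of `n` in base `b`. -/
def digit (b i n : ℕ) : ℕ := n / b ^ i % b

/-- The number which arises from the number `N` with at most `K` digits in base `b`, if for every `i ∈ S`
the digit number `i` is replaced by `f i`. -/
def change (b K N : ℕ) (f : ℕ → ℕ) (S : Finset ℕ) : ℕ :=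
  ∑ i ∈ range K, (if i ∈ S then f i else digit b i N) * b ^ i

open Classical in
/-- The number of the choices of `r l` of `K l` positions for all `l < 5` for which the vector of the numbers obtained by
changing the digits of the `N l` at the chosen positions (according to `f l`) does not have the property `E`. -/
noncomputable def exceptions (b : ℕ) (K r N : Fin 5 → ℕ) (f : Fin 5 → ℕ → ℕ) (E : (Fin 5 → ℕ) → Prop) : ℕ :=
  ((Fintype.piFinset (fun l => powersetCard (r l) (range (K l)))).filter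
    (fun S => ¬ E (fun l => change b (K l) (N l) (f l) (S l)))).card

lemma exc_eq (b : ℕ) (K r N : Fin 5 → ℕ) (f : Fin 5 → ℕ → ℕ) (E : (Fin 5 → ℕ) → Prop) :
    exceptions b K r N f E = Pool.Agent.Y57.FD.exceptions b K r N f E := rfl

lemma card_affine (p : ℕ) [Fact p.Prime] (hp : p ≠ 2) (f : ZMod p → ZMod p) :
    (Nat.card {P : ZMod p × ZMod p // P.2 ^ 2 = f P.1} : ℝ) = (p : ℝ) + ∑ x : ZMod p, (quadraticChar (ZMod p) (f x) : ℝ) := by
  classical
  have hchar : ringChar (ZMod p) ≠ 2 := by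
    rw [ZMod.ringChar_zmod_n]
    exact hp
  have h1 : Nat.card {P : ZMod p × ZMod p // P.2 ^ 2 = f P.1} = ∑ x : ZMod p, Nat.card {y : ZMod p // y ^ 2 = f x} := by
    rw [← Nat.card_sigma]
    refine Nat.card_congr ⟨fun P => ⟨P.1.1, ⟨P.1.2, P.2⟩⟩, fun P => ⟨(P.1, P.2.1), P.2.2⟩, fun _ => rfl, fun _ => rfl⟩
  have h2 : ∀ x : ZMod p, ((Nat.card {y : ZMod p // y ^ 2 = f x} : ℕ) : ℤ) = quadraticChar (ZMod p) (f x) + 1 := by
    intro x
    rw [← quadraticChar_card_sqrts hchar (f x)]
    congr 1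
    rw [Nat.card_eq_fintype_card, Fintype.card_subtype]
    congr 1
    ext y
    simp
  rw [h1]
  push_cast
  have h3 : ∀ x : ZMod p, ((Nat.card {y : ZMod p // y ^ 2 = f x} : ℕ) : ℝ) = (quadraticChar (ZMod p) (f x) : ℝ) + 1 := by
    intro x
    have := h2 x
    exact_mod_cast this
  rw [sum_congr rfl (fun x _ => h3 x), sum_add_distrib, sum_const, card_univ, ZMod.card, nsmul_eq_mul, mul_one]
  ring

lemma frobTrace_eq (p : ℕ) (hp : p.Prime) (m : Fin 5 → ℕ) :
    frobTrace p m = - Pool.Agent.Y57.FD.HM.tr 2 p m := by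
  classical
  haveI : Fact p.Prime := ⟨hp⟩
  unfold frobTrace Pool.Agent.Y57.FD.HM.tr
  by_cases h2 : p = 2
  · rw [if_neg (fun h => h.1 h2), dif_neg (fun h => h.2 h2)]
    simp
  · rw [dif_pos ⟨hp, h2⟩]
    by_cases h3 : (Pool.Agent.Y57.FD.HM.pol p (D := 2 * 2 + 1) (fun i => ((m i : ℕ) : ZMod p))).Separable
    · have h4 : Smooth p m := ⟨h2, h3⟩
      rw [if_pos h4, if_pos h3]
      unfold points
      push_cast
      rw [card_affine p h2 (fun x => x ^ 5 + ∑ i : Fin 5, (m i : ZMod p) * x ^ (i : ℕ))]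
      rw [ZMod.card]
      have h5 : ∀ x : ZMod p, Pool.Agent.Y57.FD.Mom.val (ZMod p) (2 * 2 + 1) (fun i => ((m i : ℕ) : ZMod p)) x =
        x ^ 5 + ∑ i : Fin 5, (m i : ZMod p) * x ^ (i : ℕ) := fun x => rfl
      simp only [h5]
      ring
    · have h4 : ¬ Smooth p m := fun h => h3 h.2
      rw [if_neg h4, if_neg h3]
      simp

lemma usp_haar (m : ℕ) (hm : m ≤ 7) : Pool.Agent.Y57.FD.Mom.usp 2 m = haar m := by
  unfold Pool.Agent.Y57.FD.Mom.usp Pool.Agent.Y57.FD.Mom.normal
  have d3 : Nat.doubleFactorial (4 - 1) = 3 := by decide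
  have d5 : Nat.doubleFactorial (6 - 1) = 15 := by decide
  obtain rfl | rfl | rfl | rfl | rfl | rfl | rfl | rfl :
    m = 0 ∨ m = 1 ∨ m = 2 ∨ m = 3 ∨ m = 4 ∨ m = 5 ∨ m = 6 ∨ m = 7 := by omega
  · rw [if_pos (by decide), if_neg (by decide)]
    simp [haar]
  · rw [if_neg (by decide), if_neg (by decide)]
    simp [haar]
  · rw [if_pos (by decide), if_neg (by decide)]
    simp [haar, Nat.doubleFactorial]
  · rw [if_neg (by decide), if_neg (by decide)]
    simp [haar]
  · rw [if_pos (by decide), if_neg (by decide), d3]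
    simp [haar]
  · rw [if_neg (by decide), if_neg (by decide)]
    simp [haar]
  · rw [if_pos (by decide), if_pos (by decide), d5]
    norm_num [haar]
  · rw [if_neg (by decide), if_neg (by decide)]
    simp [haar]

/-- the local moments -/
lemma mean_moment (m : ℕ) (hm : m ≤ 7) : ∃ C : ℝ, 0 ≤ C ∧ ∀ p : ℕ, p.Prime →
    |Pool.Agent.TH894.NE.mean 5 p (fun v => frobTrace p v ^ m - haar m)| ≤ C / p := by
  obtain ⟨C, hC0, hC⟩ := Pool.Agent.Y57.FD.HM.mean_pol 2 (fun l => if l = m then (-1) ^ m else if l = 0 then 0 else 0)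
  refine ⟨C, hC0, fun p hp => ?_⟩
  have h := hC p hp
  have h1 : ∀ F : ℕ → ℝ, ∑ l ∈ range (2 * 2 + 4), (if l = m then (-1 : ℝ) ^ m else if l = 0 then 0 else 0) * F l = (-1) ^ m * F m := by
    intro F
    rw [sum_eq_single m]
    · rw [if_pos rfl]
    · intro l _ hl
      rw [if_neg hl, ite_self, zero_mul]
    · intro hl
      exact absurd (mem_range.2 (by omega)) hl
  simp only [h1] at h
  rw [usp_haar m hm] at h
  have h2 : (-1 : ℝ) ^ m * haar m = haar m := by
    obtain rfl | rfl | rfl | rfl | rfl | rfl | rfl | rfl :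
      m = 0 ∨ m = 1 ∨ m = 2 ∨ m = 3 ∨ m = 4 ∨ m = 5 ∨ m = 6 ∨ m = 7 := by omega
    all_goals norm_num [haar]
  rw [h2] at h
  have h3 : Pool.Agent.TH894.NE.mean 5 p (fun v => frobTrace p v ^ m - haar m) =
      Pool.Agent.TH894.NE.mean (2 * 2 + 1) p (fun v => (-1) ^ m * Pool.Agent.Y57.FD.HM.tr 2 p v ^ m) - haar m := by
    have h4 : (fun v : Fin 5 → ℕ => frobTrace p v ^ m - haar m) =
        fun v : Fin (2 * 2 + 1) → ℕ => (-1) ^ m * Pool.Agent.Y57.FD.HM.tr 2 p v ^ m - haar m := by
      funext v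
      rw [frobTrace_eq p hp, neg_pow]
    rw [h4]
    unfold Pool.Agent.TH894.NE.mean
    rw [sum_sub_distrib, sum_const, Pool.Agent.TH894.NE.card_box, nsmul_eq_mul, mul_sub]
    have hp0 : (0 : ℝ) < p := by exact_mod_cast hp.pos
    push_cast
    field_simp
  rw [h3]
  exact h

lemma trace_le (p : ℕ) (hp : p.Prime) (m : Fin 5 → ℕ) : |frobTrace p m| ≤ 4 := by
  rw [frobTrace_eq p hp, abs_neg]
  refine (Pool.Agent.Y57.FD.HM.tr_le 2 p m).trans ?_
  norm_num

lemma haar_le (m : ℕ) : |haar m| ≤ 14 := by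
  unfold haar
  split <;> norm_num

lemma pow_le_big (p : ℕ) (hp : p.Prime) (m : Fin 5 → ℕ) (e : ℕ) (he : e ≤ 7) : |frobTrace p m ^ e| ≤ 16384 := by
  rw [abs_pow]
  calc |frobTrace p m| ^ e ≤ 4 ^ e := pow_le_pow_left₀ (abs_nonneg _) (trace_le p hp m) e
    _ ≤ 4 ^ 7 := pow_le_pow_right₀ (by norm_num) he
    _ = 16384 := by norm_num

/-- the terms of the telescoping sum -/
noncomputable def H {s : ℕ} (e : Fin s → ℕ) (t i : Fin s) (p : ℕ) (m : Fin 5 → ℕ) : ℝ :=
  if p.Prime ∧ e i ≤ 7 then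
    (if i < t then haar (e i) else if t < i then frobTrace p m ^ e i else frobTrace p m ^ e i - haar (e i)) else 0

lemma telescope {s : ℕ} (x μ : Fin s → ℝ) : ∏ i, x i - ∏ i, μ i =
    ∑ t, ∏ i, (if i < t then μ i else if t < i then x i else x i - μ i) := by
  have h := Finset.prod_sub_ordered (univ : Finset (Fin s)) x (fun i => x i - μ i)
  simp only [sub_sub_cancel] at h
  rw [h, sub_sub_cancel]
  apply sum_congr rfl
  intro t _
  rw [prod_ite]
  have h2 : (univ.filter (fun i : Fin s => ¬ i < t)) = insert t (univ.filter (fun i => t < i)) := by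
    ext i
    simp only [mem_filter, mem_univ, true_and, mem_insert, not_lt]
    constructor
    · intro h3
      rcases h3.eq_or_lt with h4 | h4
      · exact Or.inl h4.symm
      · exact Or.inr h4
    · rintro (h3 | h3)
      · exact h3.ge
      · exact h3.le
  rw [h2, prod_insert (by simp), if_neg (lt_irrefl t)]
  have h3 : ∏ i ∈ univ.filter (fun i => t < i), (if t < i then x i else x i - μ i) = ∏ i ∈ univ.filter (fun i => t < i), x i := by
    apply prod_congr rfl
    intro i hi
    rw [if_pos (mem_filter.1 hi).2]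
  rw [h3]
  ring

/-- **The first seven moments of the Sato-Tate conjecture for Jacobians of curves of genus 2 with few changed digits.**  Let a base
`b ≥ 2`, an integer `s ≥ 1`, `δ > 0` and integers `A, B ≥ 0` be given. There are `c > 0` and `y₀` such that for all integers `r l`,
`K l` (`l < 5`), `y` with `2 r l ≤ K l` and `y ≥ y₀` the following holds.

Let `0 ≤ N l < b ^ K l` be arbitrary integers, prescribe for every position `j` a digit `f l j` different from the digit of
`N l` in base `b`, and let for every `n` an arbitrary set `W n` of at most `n ^ B` weights `w : ℕ → [-1, 1]` be given (for instance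
the indicator functions of intervals, residue classes or other sets of primes, or the values of characters). If one chooses `r l` of
the `K l` positions and replaces the digits of `N l` at these positions, then for all but at most a proportion `1 / y ^ A` of the
choices the Jacobian of the curve `y ^ 2 = x ^ 5 + m 4 x ^ 4 + ... + m 0` with the numbers `m l` obtained has the following property:
for all integers `n` with `y ≤ n ≤ exp (c r l)` for all `l`, all weights `w ∈ W n` and all orders `e 1, ..., e s ≤ 7` the sum of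
`w k a_{p_k} ^ {e 1} ... a_{p_{k + s - 1}} ^ {e s}` over `k < n`, where `a_p` is the normalised trace of Frobenius at the prime `p`, is
`(∑ w k) μ (e 1) ... μ (e s)`, where the `μ (e)` are the moments `1, 0, 1, 0, 3, 0, 14, 0` of `USp(4)`, with an error of at most
`(max 1 (∑ w k ^ 2)) ^ (1 / 2) n ^ δ`. -/
theorem result (b s : ℕ) (hb : 2 ≤ b) (hs : 1 ≤ s) (δ : ℝ) (hδ : 0 < δ) (A B : ℕ) :
    ∃ c : ℝ, 0 < c ∧ ∃ y₀ : ℕ, ∀ (K r : Fin 5 → ℕ) (y : ℕ), (∀ l, 2 * r l ≤ K l) → y₀ ≤ y →
    ∀ N : Fin 5 → ℕ, (∀ l, N l < b ^ K l) → ∀ f : Fin 5 → ℕ → ℕ, (∀ l j, f l j < b ∧ f l j ≠ digit b j (N l)) →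
    ∀ W : ℕ → Set (ℕ → ℝ), (∀ n, (W n).Finite ∧ (W n).ncard ≤ n ^ B) → (∀ n, ∀ w ∈ W n, ∀ k, |w k| ≤ 1) →
      (exceptions b K r N f (fun m => ∀ n : ℕ, y ≤ n → (∀ l, (n : ℝ) ≤ Real.exp (c * r l)) → GoodMoments s δ (W n) n m) : ℝ) ≤
        1 / (y : ℝ) ^ A * ∏ l, ((K l).choose (r l) : ℝ) := by
  classical
  -- the constants of the local means
  have hch : ∀ m : ℕ, ∃ C : ℝ, 0 ≤ C ∧ (m ≤ 7 → ∀ p : ℕ, p.Prime →
      |Pool.Agent.TH894.NE.mean 5 p (fun v => frobTrace p v ^ m - haar m)| ≤ C / p) := by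
    intro m
    by_cases hm : m ≤ 7
    · obtain ⟨C, hC0, hC⟩ := mean_moment m hm
      exact ⟨C, hC0, fun _ => hC⟩
    · exact ⟨0, le_rfl, fun h => absurd h hm⟩
  choose C hC0 hC using hch
  obtain ⟨C', hC'⟩ : ∃ C' : ℝ, C' = ∑ j ∈ range 8, C j := ⟨_, rfl⟩
  have hC'0 : 0 ≤ C' := by
    rw [hC']
    exact sum_nonneg fun j _ => hC0 j
  obtain ⟨c, hc, y₁, h⟩ := Pool.Agent.Y57.FD.tuples0 b 5 s hb (by norm_num) hs (δ / 2) (by positivity) A (B + (3 * s + s)) 16400 C'
    (by norm_num) hC'0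
  -- the size of n
  obtain ⟨n₀, hn₀⟩ : ∃ n₀ : ℕ, ∀ n : ℕ, n₀ ≤ n → (s : ℝ) ≤ (n : ℝ) ^ (δ / 2) := by
    have h1 : Filter.Tendsto (fun x : ℕ => ((x : ℝ)) ^ (δ / 2)) Filter.atTop Filter.atTop :=
      (tendsto_rpow_atTop (by positivity)).comp tendsto_natCast_atTop_atTop
    exact Filter.eventually_atTop.1 (h1.eventually_ge_atTop (s : ℝ))
  refine ⟨c, hc, y₁ + n₀ + 2, fun K r y hrK hy N hN f hf W hW hW1 => ?_⟩
  rw [exc_eq]
  have hWf : ∀ n, (W n).Finite := fun n => (hW n).1
  obtain ⟨J, hJ⟩ : ∃ J : Finset (Fin s → ℕ), J = Fintype.piFinset (fun _ : Fin s => range 8) := ⟨_, rfl⟩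
  have hJm : ∀ e : Fin s → ℕ, e ∈ J ↔ ∀ i, e i ≤ 7 := by
    intro e
    rw [hJ, Fintype.mem_piFinset]
    simp only [mem_range]
    constructor
    · intro h1 i
      have := h1 i
      omega
    · intro h1 i
      have := h1 i
      omega
  refine h K r y hrK (by omega) N hN f hf
    ((ℕ → ℝ) × ((Fin s → ℕ) × Fin s)) (fun n => (hWf n).toFinset ×ˢ (J ×ˢ (univ : Finset (Fin s)))) ?_ (fun l => l.1) ?_
    (fun l i p m => H l.2.1 l.2.2 i p m) ?_ ?_ ?_ _ ?_
  · intro n hn
    rw [card_product, card_product, ← Set.ncard_eq_toFinset_card _ (hWf n), pow_add, pow_add]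
    apply Nat.mul_le_mul (hW n).2
    apply Nat.mul_le_mul
    · rw [hJ, Fintype.card_piFinset_const, card_range, pow_mul]
      apply Nat.pow_le_pow_left
      calc 8 = 2 ^ 3 := by norm_num
        _ ≤ n ^ 3 := Nat.pow_le_pow_left hn 3
    · rw [card_univ, Fintype.card_fin]
      exact (Nat.lt_two_pow_self).le.trans (Nat.pow_le_pow_left hn s)
  · intro n l hl k
    rw [mem_product, Set.Finite.mem_toFinset] at hl
    exact hW1 n l.1 hl.1 k
  · intro l i p hp m
    have h1 : frobTrace p m = frobTrace p (fun j => m j % p) := by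
      rw [frobTrace_eq p hp, frobTrace_eq p hp]
      have := Pool.Agent.Y57.FD.HM.tr_mod 2 p m
      rw [this]
    show H l.2.1 l.2.2 i p m = H l.2.1 l.2.2 i p (fun j => m j % p)
    unfold H
    rw [← h1]
  · intro l i p hp m
    show |H l.2.1 l.2.2 i p m| ≤ 16400
    unfold H
    split_ifs with h1 h2 h3
    · exact (haar_le _).trans (by norm_num)
    · exact (pow_le_big p hp m _ h1.2).trans (by norm_num)
    · refine (abs_sub _ _).trans ((add_le_add (pow_le_big p hp m _ h1.2) (haar_le _)).trans (by norm_num))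
    · rw [abs_zero]
      norm_num
  · intro n l hl
    rw [mem_product, mem_product] at hl
    have h1 := (hJm l.2.1).1 hl.2.1
    refine ⟨l.2.2, fun p hp => ?_⟩
    have hp0 : (0 : ℝ) < p := by exact_mod_cast hp.pos
    have hp1 : (1 : ℝ) ≤ p := by exact_mod_cast hp.one_lt.le
    have h2 : H l.2.1 l.2.2 l.2.2 p = fun m : Fin 5 → ℕ => frobTrace p m ^ l.2.1 l.2.2 - haar (l.2.1 l.2.2) := by
      funext m
      unfold H
      rw [if_pos ⟨hp, h1 _⟩, if_neg (lt_irrefl _), if_neg (lt_irrefl _)]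
    show |Pool.Agent.TH894.NE.mean 5 p (H l.2.1 l.2.2 l.2.2 p)| ≤ _
    rw [h2]
    refine (hC (l.2.1 l.2.2) (h1 _) p hp).trans ?_
    have h3 : C (l.2.1 l.2.2) ≤ C' := by
      rw [hC']
      exact single_le_sum (f := C) (fun j _ => hC0 j) (mem_range.2 (by have := h1 l.2.2; omega))
    have h4 : Real.sqrt p ≤ p := by
      rw [Real.sqrt_le_left hp0.le]
      nlinarith
    calc C (l.2.1 l.2.2) / (p : ℝ) ≤ C' / p := div_le_div_of_nonneg_right h3 hp0.le
      _ ≤ C' / Real.sqrt p := div_le_div_of_nonneg_left hC'0 (Real.sqrt_pos.2 hp0) h4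
  · intro m hm n hyn hnr w hw e he
    have hn1 : (1 : ℝ) ≤ n := by exact_mod_cast (by omega : 1 ≤ n)
    have hnp : (0 : ℝ) < n := by linarith
    have h1 : ∀ t : Fin s, |∑ k ∈ range n, w k * ∏ i : Fin s, H e t i (Pool.Agent.TH894.NF.pr (k + i)) m| ≤
        Real.sqrt (max 1 (∑ k ∈ range n, w k ^ 2)) * (n : ℝ) ^ (δ / 2) := by
      intro t
      exact hm n (by omega) (by omega) hnr (w, e, t) (by
        rw [mem_product, mem_product, Set.Finite.mem_toFinset]
        exact ⟨hw, (hJm e).2 he, mem_univ t⟩)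
    have h2 : momentSum s w e n m - (∑ k ∈ range n, w k) * ∏ i, haar (e i) =
        ∑ t : Fin s, ∑ k ∈ range n, w k * ∏ i : Fin s, H e t i (Pool.Agent.TH894.NF.pr (k + i)) m := by
      unfold momentSum
      rw [sum_comm, sum_mul, ← sum_sub_distrib]
      refine sum_congr rfl fun k _ => ?_
      rw [← mul_sub, ← mul_sum]
      congr 1
      have h3 := telescope (fun i : Fin s => frobTrace (Nat.nth Nat.Prime (k + i)) m ^ e i) (fun i => haar (e i))
      rw [h3]
      refine sum_congr rfl fun t _ => prod_congr rfl fun i _ => ?_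
      have hpp : (Pool.Agent.TH894.NF.pr (k + i)).Prime ∧ e i ≤ 7 := ⟨Pool.Agent.TH894.NF.pr_prime _, he i⟩
      unfold H
      rw [eq_comm, if_pos hpp]
      rfl
    rw [h2]
    have h4 : |∑ t : Fin s, ∑ k ∈ range n, w k * ∏ i : Fin s, H e t i (Pool.Agent.TH894.NF.pr (k + i)) m| ≤
        (s : ℝ) * (Real.sqrt (max 1 (∑ k ∈ range n, w k ^ 2)) * (n : ℝ) ^ (δ / 2)) := by
      refine (abs_sum_le_sum_abs _ _).trans ((sum_le_sum fun t _ => h1 t).trans ?_)
      rw [sum_const, card_univ, Fintype.card_fin, nsmul_eq_mul]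
    refine h4.trans ?_
    have h5 : (n : ℝ) ^ δ = (n : ℝ) ^ (δ / 2) * (n : ℝ) ^ (δ / 2) := by
      rw [← Real.rpow_add hnp]
      congr 1
      ring
    rw [h5]
    calc (s : ℝ) * (Real.sqrt (max 1 (∑ k ∈ range n, w k ^ 2)) * (n : ℝ) ^ (δ / 2)) =
        Real.sqrt (max 1 (∑ k ∈ range n, w k ^ 2)) * ((s : ℝ) * (n : ℝ) ^ (δ / 2)) := by ring
      _ ≤ Real.sqrt (max 1 (∑ k ∈ range n, w k ^ 2)) * ((n : ℝ) ^ (δ / 2) * (n : ℝ) ^ (δ / 2)) := by
          apply mul_le_mul_of_nonneg_left _ (Real.sqrt_nonneg _)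
          exact mul_le_mul_of_nonneg_right (hn₀ n (by omega)) (by positivity)

end Pool.Agent.Results.MP_6dc561_nt.FewDigitJacobians
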