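import Pool.Agent.Y792.AS.Main

/-!
# Signs and half planes for the Frobenius traces of abelian surfaces

Let `A` be an abelian surface over a number field `F`.  At a prime `v` of good reduction, with residue field of
`q` elements, the characteristic polynomial of Frobenius on `V_ℓ(A)` is
`X^4 - A_v X^3 + B_v X^2 - q A_v X + q^2` with integers `A_v`, `B_v`, all roots have absolute value `√q`
(Weil), and `A(k_v)` has `1 - A_v + B_v - q A_v + q^2` elements.  Put `a_v = A_v / √q`, `b_v = B_v / q`; these are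
the first two elementary symmetric functions of the eigenvalues of the Frobenius class `s(v)` in `USp(4)`.

If the Sato-Tate group is `USp(4)` (that is, `End(A)` over the algebraic closure is `Z`), then five
non-trivial irreducible characters of `USp(4)` are known to have mean value zero when `F` is totally real,
those of dimension 4, 5, 10, 14, 16, which are `a`, `b - 1`, `a^2 - b`, `b^2 - b - a^2`, `ab - 2a`
(potential automorphy of `A`, the exterior square transfer, Rankin-Selberg theory).  Equivalently the means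
of `a, b, a^2, ab, b^2` are `0, 1, 1, 0, 2`, as for the Haar measure.  No other mean value is known.

We find what these five means say about signs and half planes, with the best possible constants, for any
method of averaging (for instance natural density, Dirichlet density, or densities relative to
a set of primes on which the five means are the same).
-/

set_option autoImplicit false

namespace Pool.Agent.Results.MP_6dc561_nt.FrobeniusHalfPlanes

open Filter Topology NumberField IsDedekindDomain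

section

variable {F : Type} [Field F] [NumberField F]

/-- The number of elements of the residue field of the prime `v`. -/
noncomputable def q (v : HeightOneSpectrum (𝓞 F)) : ℝ := Ideal.absNorm v.asIdeal

/-- All complex roots of `X^4 - A X^3 + B X^2 - q_v A X + q_v^2` have absolute value `√q_v`. -/
def IsWeil (v : HeightOneSpectrum (𝓞 F)) (A B : ℤ) : Prop :=
  ∀ z : ℂ, z ^ 4 - A * z ^ 3 + B * z ^ 2 - (q v : ℂ) * A * z + (q v : ℂ) ^ 2 = 0 → ‖z‖ = √(q v)

/-- The number `1 - A + B - q A + q^2` of points of the reduction at `v`. -/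
noncomputable def points (v : HeightOneSpectrum (𝓞 F)) (A B : ℤ) : ℝ :=
  1 - A + B - q v * A + q v ^ 2

/-- `w t v`, `t → l`, are weights of an averaging over the primes: they are nonnegative and summable,
the total weight tends to `1` and the weight of each prime tends to `0`. -/
structure IsAveraging {T : Type} (l : Filter T) (w : T → HeightOneSpectrum (𝓞 F) → ℝ) : Prop where
  nonneg : ∀ t v, 0 ≤ w t v
  summable : ∀ t, Summable (w t)
  total : Tendsto (fun t => ∑' v, w t v) l (𝓝 1)
  small : ∀ v, Tendsto (fun t => w t v) l (𝓝 0)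

variable (F) in
/-- The weights of natural density: `1 / #{v : q_v ≤ N}` for the primes with `q_v ≤ N`, and `0` for the others. -/
noncomputable def naturalWeights (N : ℕ) (v : HeightOneSpectrum (𝓞 F)) : ℝ :=
  {v : HeightOneSpectrum (𝓞 F) | Ideal.absNorm v.asIdeal ≤ N}.indicator
    (fun _ => (1 / Nat.card {v : HeightOneSpectrum (𝓞 F) // Ideal.absNorm v.asIdeal ≤ N} : ℝ)) v

variable (F) in
/-- The weights of Dirichlet density: `q_v^(-1-ε) / ∑ q_u^(-1-ε)`, `ε > 0`. -/
noncomputable def dirichletWeights (ε : Set.Ioi (0 : ℝ)) (v : HeightOneSpectrum (𝓞 F)) : ℝ :=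
  (Ideal.absNorm v.asIdeal : ℝ) ^ (-(1 + (ε : ℝ))) /
    ∑' u : HeightOneSpectrum (𝓞 F), (Ideal.absNorm u.asIdeal : ℝ) ^ (-(1 + (ε : ℝ)))

/-- The average of `f` with the weights `w t`. -/
noncomputable def mean {T : Type} (w : T → HeightOneSpectrum (𝓞 F) → ℝ)
    (f : HeightOneSpectrum (𝓞 F) → ℝ) (t : T) : ℝ := ∑' v, w t v * f v

/-- The averages of `a`, `b`, `a^2`, `a b`, `b^2`, where `a_v = A_v / √q_v` and `b_v = B_v / q_v`, tend to
`0, 1, 1, 0, 2`, their mean values for `USp(4)`: the characters of `USp(4)` of dimension `4, 5, 10, 14, 16` have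
mean value zero. -/
structure KnownMeans {T : Type} (l : Filter T) (w : T → HeightOneSpectrum (𝓞 F) → ℝ)
    (A B : HeightOneSpectrum (𝓞 F) → ℤ) : Prop where
  a : Tendsto (mean w fun v => A v / √(q v)) l (𝓝 0)
  b : Tendsto (mean w fun v => B v / q v) l (𝓝 1)
  aa : Tendsto (mean w fun v => (A v / √(q v)) ^ 2) l (𝓝 1)
  ab : Tendsto (mean w fun v => A v / √(q v) * (B v / q v)) l (𝓝 0)
  bb : Tendsto (mean w fun v => (B v / q v) ^ 2) l (𝓝 2)

/-- The set `S` of primes has lower density at least `c` for the averaging `w`. -/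
def LowerDensityGE {T : Type} (l : Filter T) (w : T → HeightOneSpectrum (𝓞 F) → ℝ)
    (S : Set (HeightOneSpectrum (𝓞 F))) (c : ℝ) : Prop :=
  ∀ c' < c, ∀ᶠ t in l, c' < mean w (S.indicator fun _ => 1) t

end

/-- The masses `p i ≥ 0` of total mass `1` at the points `(a i, b i)` are a probability law with the five
mean values of `USp(4)`, each point being given by a class of `USp(4)` with eigenvalues `exp(± i θ)`,
`exp(± i φ)`: `a = 2 cos θ + 2 cos φ`, `b = 2 + 4 cos θ cos φ`. -/
structure IsLaw {n : ℕ} (p a b : Fin n → ℝ) : Prop where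
  nonneg : ∀ i, 0 ≤ p i
  total : ∑ i, p i = 1
  point : ∀ i, ∃ θ φ : ℝ, a i = 2 * Real.cos θ + 2 * Real.cos φ ∧
    b i = 2 + 4 * Real.cos θ * Real.cos φ
  mean_a : ∑ i, p i * a i = 0
  mean_b : ∑ i, p i * b i = 1
  mean_aa : ∑ i, p i * a i ^ 2 = 1
  mean_ab : ∑ i, p i * (a i * b i) = 0
  mean_bb : ∑ i, p i * b i ^ 2 = 2

open Pool.Agent.Y792.AS in
private theorem isLaw_of {n : ℕ} {p a b : Fin n → ℝ} (h : Law p a b) : IsLaw p a b where
  nonneg := h.nonneg
  total := h.total
  point := fun i => by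
    obtain ⟨x, y, hx, hy, h1, h2⟩ := h.reg i
    obtain ⟨x1, x2⟩ := abs_le.1 hx
    obtain ⟨y1, y2⟩ := abs_le.1 hy
    refine ⟨Real.arccos (x / 2), Real.arccos (y / 2), ?_, ?_⟩
    · rw [Real.cos_arccos (by linarith) (by linarith), Real.cos_arccos (by linarith) (by linarith),
        h1]
      ring
    · rw [Real.cos_arccos (by linarith) (by linarith), Real.cos_arccos (by linarith) (by linarith),
        h2]
      ring
  mean_a := h.ma
  mean_b := h.mb
  mean_aa := h.maa
  mean_ab := h.mab
  mean_bb := h.mbb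

section

variable {F : Type} [Field F] [NumberField F]

open Pool.Agent.Y792.AS in
private theorem dat {T : Type} {l : Filter T} {w : T → HeightOneSpectrum (𝓞 F) → ℝ}
    (hw : IsAveraging l w) {S : Set (HeightOneSpectrum (𝓞 F))} (hS : S.Finite)
    {A B : HeightOneSpectrum (𝓞 F) → ℤ} (hW : ∀ v ∉ S, IsWeil v (A v) (B v))
    (hm : KnownMeans l w A B) :
    Dat l w S (fun v => A v / √(q v)) (fun v => B v / q v) := by
  have hq : ∀ v : HeightOneSpectrum (𝓞 F), 0 < q v := fun v => by
    have : 2 ≤ Ideal.absNorm v.asIdeal := Pool.Agent.W540.BE.two_le_nm v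
    unfold q
    exact_mod_cast (by omega : 0 < Ideal.absNorm v.asIdeal)
  have hr : ∀ v ∉ S, Reg (A v / √(q v)) (B v / q v) := fun v hv => by
    apply reg_of_weil (hq v)
    intro z hz
    apply hW v hv z
    push_cast at hz
    exact hz
  have ha : Bdd fun v => (A v : ℝ) / √(q v) := bdd_of hS (C := 4) fun v hv => by
    have := (hr v hv).ineq
    exact abs_le.2 ⟨by linarith [this.1], this.2.1⟩
  have hb : Bdd fun v => (B v : ℝ) / q v := bdd_of hS (C := 6) fun v hv => by
    have := (hr v hv).ineq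
    exact abs_le.2 ⟨by linarith [this.2.2.2.2.2], this.2.2.2.2.1⟩
  refine ⟨⟨hw.nonneg, hw.summable, hw.total, hw.small⟩, hS, hr, ⟨ha, hm.a⟩, ⟨hb, hm.b⟩,
    ⟨?_, hm.aa⟩, ⟨ha.mul hb, hm.ab⟩, ⟨?_, hm.bb⟩⟩
  · simpa only [sq] using ha.mul ha
  · simpa only [sq] using hb.mul hb

end

open Pool.Agent.Y792.AS in
/-- **Signs and half planes for abelian surfaces.** -/
theorem result :
    (∀ (F : Type) [Field F] [NumberField F],
      IsAveraging atTop (naturalWeights F) ∧
      IsAveraging (comap Subtype.val (𝓝[>] 0)) (dirichletWeights F) ∧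
      ∀ (T : Type) (l : Filter T) (w : T → HeightOneSpectrum (𝓞 F) → ℝ), IsAveraging l w →
      ∀ S : Set (HeightOneSpectrum (𝓞 F)), S.Finite →
      ∀ A B : HeightOneSpectrum (𝓞 F) → ℤ, (∀ v ∉ S, IsWeil v (A v) (B v)) →
      KnownMeans l w A B →
        -- the signs of the traces, and the numbers of points
        LowerDensityGE l w {v | 0 < A v} ((21 - 6 * √6) / 100) ∧
        LowerDensityGE l w {v | A v < 0} ((21 - 6 * √6) / 100) ∧
        LowerDensityGE l w {v | q v ^ 2 + 1 < points v (A v) (B v)} ((21 - 6 * √6) / 100) ∧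
        LowerDensityGE l w {v | points v (A v) (B v) < q v ^ 2 + 1} ((21 - 6 * √6) / 100) ∧
        -- all half planes through the mean value
        (∀ y z : ℝ, y ≠ 0 ∨ z ≠ 0 →
          LowerDensityGE l w {v | 0 < y * (A v / √(q v)) + z * (B v / q v - 1)} (1 / 56)) ∧
        -- the second coefficient
        (∀ t : ℝ, t < 4 / 3 →
          LowerDensityGE l w {v | t * q v < B v} ((4 - 3 * t) / (8 * (6 - t)))) ∧
        (∀ t : ℝ, 4 / 5 < t →
          LowerDensityGE l w {v | (B v : ℝ) < t * q v} ((5 * t - 4) / (8 * (t + 2)))) ∧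
        -- large traces of either sign
        (∀ t : ℝ, t < 2 / 3 →
          LowerDensityGE l w {v | t * √(q v) < A v} ((2 - 3 * t) / (16 * (4 - t))) ∧
          LowerDensityGE l w {v | (A v : ℝ) < -(t * √(q v))} ((2 - 3 * t) / (16 * (4 - t))))) ∧
    -- the constants are best possible
    (∃ p a b : Fin 3 → ℝ, IsLaw p a b ∧
      (∑ i, if 0 < a i then p i else 0) = (21 - 6 * √6) / 100 ∧
      (∑ i, if a i < 0 then p i else 0) = (21 - 6 * √6) / 100) ∧
    (∃ p a b : Fin 5 → ℝ, IsLaw p a b ∧
      (∑ i, if 0 < a i + 2 * (b i - 1) then p i else 0) = 1 / 56) ∧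
    (∃ p a b : Fin 6 → ℝ, IsLaw p a b ∧
      (∑ i, if 1 < b i then p i else 0) = 1 / 40 ∧ (∑ i, if b i < 1 then p i else 0) = 1 / 24) ∧
    (∃ p a b : Fin 3 → ℝ, IsLaw p a b ∧ ∀ i, a i ≤ 2 / 3) ∧
    (∃ p a b : Fin 4 → ℝ, IsLaw p a b ∧ ∀ i, b i ≤ 4 / 3) ∧
    (∃ p a b : Fin 5 → ℝ, IsLaw p a b ∧ ∀ i, 4 / 5 ≤ b i) := by
  refine ⟨?_, ?_, ?_, ?_, ?_, ?_, ?_⟩
  · intro F _ _
    refine ⟨⟨isAvg_nat.nonneg, isAvg_nat.summable, isAvg_nat.total, isAvg_nat.small⟩,
      ⟨isAvg_dir.nonneg, isAvg_dir.summable, isAvg_dir.total, isAvg_dir.small⟩, ?_⟩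
    intro T l w hw S hS A B hW hm
    have h := dat hw hS hW hm
    have hq : ∀ v : HeightOneSpectrum (𝓞 F), 0 < q v := fun v => by
      have : 2 ≤ Ideal.absNorm v.asIdeal := Pool.Agent.W540.BE.two_le_nm v
      unfold q
      exact_mod_cast (by omega : 0 < Ideal.absNorm v.asIdeal)
    have hsq : ∀ v : HeightOneSpectrum (𝓞 F), 0 < √(q v) := fun v => Real.sqrt_pos.2 (hq v)
    have hfin : ∀ C : ℝ, {v : HeightOneSpectrum (𝓞 F) | q v ≤ C}.Finite := fun C => by
      refine (fin_le (F := F) ⌊C⌋₊).subset fun v hv => ?_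
      exact Nat.le_floor hv
    have eA : ∀ v, (A v : ℝ) = A v / √(q v) * √(q v) := fun v => (div_mul_cancel₀ _ (hsq v).ne').symm
    have eB : ∀ v, (B v : ℝ) = B v / q v * q v := fun v => (div_mul_cancel₀ _ (hq v).ne').symm
    have eP : ∀ v, points v (A v) (B v) = q v ^ 2 + 1 +
        (-(A v / √(q v) * √(q v)) * (1 + q v) + B v / q v * q v) := fun v => by
      unfold points
      rw [← eA, ← eB]
      ring
    refine ⟨?_, ?_, ?_, ?_, ?_, ?_, ?_, ?_⟩
    · refine ld_mono h.avg hS h.pos fun v _ hv => ?_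
      have hv' : 0 < (A v : ℝ) / √(q v) := hv
      have h1 : (0 : ℝ) < A v := by
        rw [eA v]; exact mul_pos hv' (hsq v)
      exact_mod_cast h1
    · refine ld_mono h.avg hS h.neg.pos fun v _ hv => ?_
      have hv' : 0 < -((A v : ℝ) / √(q v)) := hv
      have h1 : (A v : ℝ) < 0 := by
        rw [eA v]; exact mul_neg_of_neg_of_pos (by linarith) (hsq v)
      exact_mod_cast h1
    · refine h.neg.cnt hfin fun v hv δ hδ h1 h2 => ?_
      have h3 := cnt_gt (h.reg v hv) hδ h1 h2
      show q v ^ 2 + 1 < points v (A v) (B v)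
      rw [eP]
      linarith
    · refine h.cnt hfin fun v hv δ hδ h1 h2 => ?_
      have h3 := cnt_lt (h.reg v hv) hδ h1 h2
      show points v (A v) (B v) < q v ^ 2 + 1
      rw [eP]
      linarith
    · intro y z hyz
      exact h.half hyz
    · intro t ht
      refine ld_mono h.avg hS (h.b_gt ht) fun v _ hv => ?_
      have hv' : t < (B v : ℝ) / q v := hv
      exact (lt_div_iff₀ (hq v)).1 hv'
    · intro t ht
      refine ld_mono h.avg hS (h.b_lt ht) fun v _ hv => ?_
      have hv' : (B v : ℝ) / q v < t := hv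
      exact (div_lt_iff₀ (hq v)).1 hv'
    · intro t ht
      constructor
      · refine ld_mono h.avg hS (h.large ht) fun v _ hv => ?_
        have hv' : t < (A v : ℝ) / √(q v) := hv
        exact (lt_div_iff₀ (hsq v)).1 hv'
      · refine ld_mono h.avg hS (h.neg.large ht) fun v _ hv => ?_
        have hv' : t < -((A v : ℝ) / √(q v)) := hv
        have h1 : (A v : ℝ) / √(q v) < -t := by linarith
        have h2 := (div_lt_iff₀ (hsq v)).1 h1
        show (A v : ℝ) < -(t * √(q v))
        linarith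
  · obtain ⟨p, a, b, h, h1, h2⟩ := law1
    exact ⟨p, a, b, isLaw_of h, h1, h2⟩
  · obtain ⟨p, a, b, h, h1⟩ := law2
    exact ⟨p, a, b, isLaw_of h, h1⟩
  · obtain ⟨p, a, b, h, h1, h2⟩ := law3
    exact ⟨p, a, b, isLaw_of h, h1, h2⟩
  · obtain ⟨p, a, b, h, h1⟩ := law4
    exact ⟨p, a, b, isLaw_of h, h1⟩
  · obtain ⟨p, a, b, h, h1⟩ := law5
    exact ⟨p, a, b, isLaw_of h, h1⟩
  · obtain ⟨p, a, b, h, h1⟩ := law6
    exact ⟨p, a, b, isLaw_of h, h1⟩

end Pool.Agent.Results.MP_6dc561_nt.FrobeniusHalfPlanes
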