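import Pool.Agent.Y798.PC.Law2
import Pool.Agent.Y798.PC.Or
import Pool.Agent.Y798.PC.Two

/-!
# Abelian surfaces isogenous to a product of two elliptic curves: the possible laws

Let `A` be an abelian surface over a number field `K` which is isogenous to the product of two elliptic curves
`E_1`, `E_2` without complex multiplication.  The Sato-Tate group of `A` is

* `SU(2) × SU(2)`, if the curves are not isogenous over the algebraic closure of `K`;
* `SU(2)`, embedded by `g ↦ (g, g)`, if they are isogenous over `K`;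
* `SU(2) × {±1}`, embedded by `(g, s) ↦ (g, s g)`, if `E_2` is isogenous to the twist of `E_1` by a nontrivial
  quadratic character.

The Frobenius class at the prime `v` is given by a point `θ_v` of `(ℝ/ℤ)²`, up to the signs of its
coordinates: the normalised Frobenius eigenvalues of `E_i` are `exp(±2πi θ_{v,i})`.  Let `L(a, b; s)` be the
`L`-function of `Sym^a E_1 ⊗ Sym^b E_2`, normalised so that its edge is the line `Re s = 1`.

Suppose that the `L(a, b; s)` have meromorphic continuations to neighbourhoods of the point `s = 1`, with zeros and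
poles of any orders, and that the curves satisfy the conditions of one curve (the orders of `L(Sym² E_i, s)` and of
`L(Sym⁴ E_i, s)` at `s = 1` are zero, and `E_i` is not of finite type; this holds if the Sato-Tate law
holds for `E_i`).  Then the classes have a law in the sense of Dirichlet density, it is the Haar law of one of the
three groups above or the law of `(g, -g)`, and the orders of `L(2, 2; s)` and of `L(1, 1; s)` at `s = 1`
decide which one.
-/

set_option autoImplicit false

namespace Pool.Agent.Results.MP_6dc561_nt.TwoCurves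

open NumberField IsDedekindDomain Filter Topology MeasureTheory UnitAddTorus

section

/-- `f` is a class function on `SU(2) × SU(2)`: it does not change if the signs of coordinates are changed. -/
def IsClassFunction (f : UnitAddTorus (Fin 2) → ℝ) : Prop :=
  ∀ (s : Fin 2 → ℤˣ) (x : UnitAddTorus (Fin 2)), f (fun i => (s i : ℤ) • x i) = f x

/-- The density `|1 - exp(4πi x)|² / 2 = 2 sin² (2π x)` of the Sato-Tate law of `SU(2)`. -/
noncomputable def density (x : UnitAddCircle) : ℝ := ‖1 - (fourier 2 x : ℂ)‖ ^ 2 / 2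

/-- The Haar law of `SU(2) × SU(2)`. -/
noncomputable def productLaw (f : UnitAddTorus (Fin 2) → ℝ) : ℝ :=
  ∫ x, f x * ∏ i, density (x i) ∂(Measure.pi fun _ : Fin 2 => AddCircle.haarAddCircle)

/-- The law of the classes `(x, x + c)`, where `x` has the Sato-Tate law of `SU(2)`: for `c = 0` the Haar law of the
group of the elements `(g, g)`, for `c = 1/2` the law of the elements `(g, -g)`. -/
noncomputable def shiftLaw (c : UnitAddCircle) (f : UnitAddTorus (Fin 2) → ℝ) : ℝ :=
  ∫ x : UnitAddCircle, f ![x, x + c] * density x ∂AddCircle.haarAddCircle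

/-- For `e = 1` the law of `(g, g)`, for `e = -1` the law of `(g, -g)`, and for `e = 0` the Haar law of the group of
the elements `(g, ±g)`. -/
noncomputable def twistLaw (e : ℤ) (f : UnitAddTorus (Fin 2) → ℝ) : ℝ :=
  (1 + e) / 2 * shiftLaw 0 f + (1 - e) / 2 * shiftLaw ((1 / 2 : ℝ) : UnitAddCircle) f

/-- `L`, given for `Re s > 1`, has a meromorphic continuation to a neighbourhood of `s = 1`. -/
def Continues (L : ℂ → ℂ) : Prop :=
  ∃ Λ : ℂ → ℂ, MeromorphicAt Λ 1 ∧ ∀ᶠ s in 𝓝 (1 : ℂ), 1 < s.re → Λ s = L s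

/-- `L` has a meromorphic continuation to a neighbourhood of `s = 1`, with a pole of order `m` at `1` (a zero of order
`-m` if `m < 0`). -/
def HasPole (L : ℂ → ℂ) (m : ℤ) : Prop :=
  ∃ Λ : ℂ → ℂ, MeromorphicAt Λ 1 ∧ (∀ᶠ s in 𝓝 (1 : ℂ), 1 < s.re → Λ s = L s) ∧
    meromorphicOrderAt Λ 1 = ((-m : ℤ) : WithTop ℤ)

variable {K : Type} [Field K] [NumberField K]

/-- The Dirichlet average `∑ f(v) q_v^{-1-ε} / ∑ q_v^{-1-ε}` over the primes of `K`. -/
noncomputable def dirichletAvg (f : HeightOneSpectrum (𝓞 K) → ℝ) (ε : ℝ) : ℝ :=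
  (∑' v : HeightOneSpectrum (𝓞 K), f v * (Ideal.absNorm v.asIdeal : ℝ) ^ (-(1 + ε))) /
    ∑' v : HeightOneSpectrum (𝓞 K), (Ideal.absNorm v.asIdeal : ℝ) ^ (-(1 + ε))

variable (θ : HeightOneSpectrum (𝓞 K) → UnitAddTorus (Fin 2))

/-- The Euler product of `Sym^{a_1} E_1 ⊗ Sym^{a_2} E_2`: the eigenvalues at `v` are the numbers
`∏_i exp(2πi (a_i - 2 j_i) θ_{v,i})`, `0 ≤ j_i ≤ a_i`. -/
noncomputable def LSym (a : Fin 2 → ℕ) (s : ℂ) : ℂ :=
  ∏' v : HeightOneSpectrum (𝓞 K), (∏ j ∈ Fintype.piFinset fun i => Finset.range (a i + 1),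
    (1 - mFourier (fun i => (a i : ℤ) - 2 * j i) (θ v) *
      (Ideal.absNorm v.asIdeal : ℂ) ^ (-s)))⁻¹

/-- The `i`-th curve is of finite type: for some `N > 0` the Dirichlet average of `|exp(2πi N θ_{v,i}) - 1|²` tends
to `0`. -/
def IsFiniteType (i : Fin 2) : Prop :=
  ∃ N : ℕ, 0 < N ∧
    Tendsto (dirichletAvg fun v => ‖(fourier (N : ℤ) (θ v i) : ℂ) - 1‖ ^ 2) (𝓝[>] 0) (𝓝 0)

/-- The classes have the law `M` in the sense of Dirichlet density. -/
def HasLaw (M : (UnitAddTorus (Fin 2) → ℝ) → ℝ) : Prop :=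
  ∀ f : UnitAddTorus (Fin 2) → ℝ, Continuous f → IsClassFunction f →
    Tendsto (dirichletAvg fun v => f (θ v)) (𝓝[>] 0) (𝓝 (M f))

end

section Bridge

set_option linter.unusedSectionVars false

open Pool.Agent.Y798.FC Pool.Agent.Y798.PC Pool.Agent.TH553.ST Pool.Agent.TH553.RS
  Pool.Agent.W540.BE

variable {K : Type} [Field K] [NumberField K] {θ : HeightOneSpectrum (𝓞 K) → UnitAddTorus (Fin 2)}

theorem productLaw_eq (f : UnitAddTorus (Fin 2) → ℝ) :
    productLaw f = rm (sgW 2) (sgR 2) f := by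
  unfold productLaw rm
  rw [Wd.card_W, ← integral_const_mul]
  refine integral_congr_ae (Eventually.of_forall fun x => ?_)
  simp only
  unfold density
  rw [Wd.dens_eq, Finset.prod_div_distrib, Finset.prod_const, Finset.card_univ, Fintype.card_fin]
  unfold Wd.ph
  push_cast
  ring

theorem class_inv {f : UnitAddTorus (Fin 2) → ℝ} (hf : IsClassFunction f) :
    ∀ w ∈ sgW 2, ∀ x, f (act w x) = f x := by
  rintro w ⟨s, h⟩ x
  rw [← hf s x]
  congr 1
  funext i
  exact Wd.act_eq h x i

theorem product_of_moms (h : Moms θ) : HasLaw θ productLaw := by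
  intro f hf hfc
  have h1 := dlaw_of_mom ms h (fun x => (f x : ℂ)) (Complex.continuous_ofReal.comp hf)
    fun w hw x => by rw [class_inv hfc w hw]
  obtain ⟨C, hC⟩ := isCompact_univ.exists_bound_of_continuousOn (f := f) hf.continuousOn
  have h2 : (Nat.card (sgW 2) : ℂ)⁻¹ * ∫ x, ((f x : ℝ) : ℂ) * (dens (sgR 2) x : ℂ) ∂(vol (Fin 2)) =
      ((productLaw f : ℝ) : ℂ) := by
    rw [productLaw_eq, ← wm_real]
    rfl
  rw [h2] at h1
  exact avg_of_cE (fun v => hC _ (Set.mem_univ _)) h1

theorem shift_eq (c : UnitAddCircle) (f : UnitAddTorus (Fin 2) → ℝ) :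
    ∫ x, ((f (dg c x) : ℝ) : ℂ) * (wt1 x : ℂ) ∂(AddCircle.haarAddCircle) =
      ((shiftLaw c f : ℝ) : ℂ) := by
  unfold shiftLaw
  rw [← integral_complex_ofReal]
  refine integral_congr_ae (Eventually.of_forall fun x => ?_)
  change _ = ((f (dg c x) * wt1 x : ℝ) : ℂ)
  push_cast
  rfl

theorem twist_of_moms {e : ℤ}
    (h : ∀ a b : ℕ, Tendsto (cE fun v => chi1 a (θ v 0) * chi1 b (θ v 1)) (𝓝[>] 0)
      (𝓝 (if a = b then (if Even a then 1 else (e : ℂ)) else 0))) : HasLaw θ (twistLaw e) := by
  intro f hf hfc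
  have h1 := two_law orth h (f := fun x => (f x : ℂ)) (Complex.continuous_ofReal.comp hf)
    fun w hw x => by rw [class_inv hfc w hw]
  obtain ⟨C, hC⟩ := isCompact_univ.exists_bound_of_continuousOn (f := f) hf.continuousOn
  rw [Lf_apply] at h1
  simp only [ContinuousMap.coe_mk] at h1
  rw [shift_eq, shift_eq] at h1
  have h2 : (1 + e : ℂ) / 2 * ((shiftLaw 0 f : ℝ) : ℂ) + (1 - e : ℂ) / 2 *
      ((shiftLaw hf2 f : ℝ) : ℂ) = ((twistLaw e f : ℝ) : ℂ) := by
    unfold twistLaw hf2
    push_cast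
    rfl
  rw [h2] at h1
  exact avg_of_cE (fun v => hC _ (Set.mem_univ _)) h1

end Bridge

open Pool.Agent.Y798.FC Pool.Agent.Y798.PC in
/-- **The laws of products of two elliptic curves.**  Let `θ_v`, `v` a prime of the number field `K`, be points
of the torus `(ℝ/ℤ)²`, and let `L(a, b; s)` be the `L`-function of `Sym^a E_1 ⊗ Sym^b E_2`.  Suppose that all
`L(a, b; s)` have meromorphic continuations to neighbourhoods of `s = 1`, with zeros and poles of any orders, that no
`E_i` is of finite type, and that the orders of `L(Sym² E_i, s)` and `L(Sym⁴ E_i, s)` at `s = 1` are zero.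
Then, in the sense of Dirichlet density,

* the order of `L(2, 2; s)` at `s = 1` is zero, and the classes have the Haar law of `SU(2) × SU(2)`, or
* `L(2, 2; s)` has a simple pole at `s = 1`, `L(1, 1; s)` has a simple pole, and the classes have the Haar law
  of the group of the `(g, g)`, or
* `L(2, 2; s)` has a simple pole at `s = 1`, the order of `L(1, 1; s)` is zero, and the classes have the Haar law
  of the group of the `(g, ±g)`, or
* `L(2, 2; s)` has a simple pole at `s = 1`, `L(1, 1; s)` has a simple zero, and the classes have the law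
  of the `(g, -g)`. -/
theorem result (K : Type) [Field K] [NumberField K]
    (θ : HeightOneSpectrum (𝓞 K) → UnitAddTorus (Fin 2))
    (hcont : ∀ a : Fin 2 → ℕ, Continues (LSym θ a))
    (hcurve : ∀ i, ¬ IsFiniteType θ i ∧ HasPole (LSym θ (Pi.single i 2)) 0 ∧
      HasPole (LSym θ (Pi.single i 4)) 0) :
    (HasPole (LSym θ ![2, 2]) 0 ∧ HasPole (LSym θ ![1, 1]) 0 ∧ HasLaw θ productLaw) ∨
    (HasPole (LSym θ ![2, 2]) 1 ∧ HasPole (LSym θ ![1, 1]) 1 ∧ HasLaw θ (twistLaw 1)) ∨
    (HasPole (LSym θ ![2, 2]) 1 ∧ HasPole (LSym θ ![1, 1]) 0 ∧ HasLaw θ (twistLaw 0)) ∨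
    (HasPole (LSym θ ![2, 2]) 1 ∧ HasPole (LSym θ ![1, 1]) (-1) ∧ HasLaw θ (twistLaw (-1))) := by
  have hc : ∀ a : Fin 2 → ℕ, ContAt (LT θ a) 1 := hcont
  have hm : ∀ a : Fin 2 → ℕ, ∃ m : ℤ,
      Tendsto (cE fun v => symT a (θ v)) (𝓝[>] 0) (𝓝 (m : ℂ)) := fun a => by
    obtain ⟨m, -, h⟩ := lt_one (hc a)
    exact ⟨m, h⟩
  choose m hm using hm
  have hu : ∀ (a : Fin 2 → ℕ), PoleAt (LT θ a) 1 0 → m a = 0 := fun a h => by
    have h3 := tendsto_nhds_unique (hm a) (lt_pole h)
    exact_mod_cast h3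
  have hs : ∀ (i : Fin 2) (k : ℕ), k ≠ 0 → m (Pi.single i k) = 0 := by
    intro i k hk
    refine single_mom (x := fun v => θ v i) (m := fun k => m (Pi.single i k)) (fun k => ?_)
      (hu _ (hcurve i).2.1) (hu _ (hcurve i).2.2) (hcurve i).1 k (Nat.one_le_iff_ne_zero.2 hk)
    simpa only [symT_single] using hm (Pi.single i k)
  obtain ⟨U, hU⟩ : ∃ U : Ultrafilter ℝ, (U : Filter ℝ) ≤ 𝓝[>] 0 :=
    ⟨Ultrafilter.of _, Ultrafilter.of_le _⟩
  obtain ⟨ν, hν⟩ := exists_ulaw θ U hU
  have hi : ∀ a : Fin 2 → ℕ,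
      ∫ x, symT a x ∂(ν : Measure (UnitAddTorus (Fin 2))) = m a := fun a =>
    tendsto_nhds_unique (hν _ (continuous_symT a)) ((hm a).mono_left hU)
  have hi2 : ∀ a b : ℕ, ∫ x, chi1 a (x 0) * chi1 b (x 1)
      ∂(ν : Measure (UnitAddTorus (Fin 2))) = m ![a, b] := fun a b => by
    rw [← hi]
    refine integral_congr_ae (Eventually.of_forall fun x => ?_)
    simp only
    rw [symT_two]
    rfl
  have hpole : ∀ (a : Fin 2 → ℕ) (k : ℤ), m a = k → HasPole (LSym θ a) k := by
    rintro a k rfl
    exact pole_of_mean (hc a) (hm a)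
  by_cases h22 : m ![2, 2] = 0
  · left
    have hM : Moms θ := moms_of_orders hc (fun i => ⟨(hcurve i).2.1, (hcurve i).2.2, (hcurve i).1⟩)
      (fun i j hij => by
        have e : (Pi.single i 2 + Pi.single j 2 : Fin 2 → ℕ) = ![2, 2] := by
          funext k
          fin_cases i <;> fin_cases j <;> fin_cases k <;> simp_all
        rw [e]
        exact hpole _ _ h22)
    refine ⟨hpole _ _ h22, hpole _ _ ?_, product_of_moms hM⟩
    have h1 := tendsto_nhds_unique (hm ![1, 1]) (hM ![1, 1] (fun h0 => by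
      have := congrFun h0 0
      simp at this))
    exact_mod_cast h1
  · right
    obtain ⟨e, he, h1⟩ := two (ν : Measure (UnitAddTorus (Fin 2))) inferInstance
      (fun a b => ⟨m ![a, b], hi2 a b⟩)
      (fun k hk => by
        have h2 := hi (Pi.single 0 k)
        rw [hs 0 k hk, Int.cast_zero] at h2
        simpa only [symT_single] using h2)
      (fun k hk => by
        have h2 := hi (Pi.single 1 k)
        rw [hs 1 k hk, Int.cast_zero] at h2
        simpa only [symT_single] using h2)
      (by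
        rw [hi2]
        exact_mod_cast h22)
    have h2 : ∀ a b : ℕ, (m ![a, b] : ℂ) = if a = b then (if Even a then 1 else (e : ℂ)) else 0 :=
      fun a b => by rw [← hi2, h1]
    have h3 : m ![2, 2] = 1 := by
      have := h2 2 2
      rw [if_pos rfl, if_pos (by decide)] at this
      exact_mod_cast this
    have h4 : m ![1, 1] = e := by
      have := h2 1 1
      rw [if_pos rfl, if_neg (by decide)] at this
      exact_mod_cast this
    have h5 : HasLaw θ (twistLaw e) := twist_of_moms fun a b => by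
      rw [← h2]
      have h6 := hm ![a, b]
      simp only [symT_two] at h6
      exact h6
    rcases he with rfl | rfl | rfl
    · exact Or.inr (Or.inr ⟨hpole _ _ h3, hpole _ _ h4, h5⟩)
    · exact Or.inr (Or.inl ⟨hpole _ _ h3, hpole _ _ h4, h5⟩)
    · exact Or.inl ⟨hpole _ _ h3, hpole _ _ h4, h5⟩

end Pool.Agent.Results.MP_6dc561_nt.TwoCurves
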